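import Mathlib
import Pool.Agent.Work.MP_ce2d68_st.Interface

set_option autoImplicit false

/-!
# Block COVF: weighted rounding for families
-/

open Polynomial

namespace Pool.Agent.Work.MP_ce2d68_st.helper54

open Pool.Agent.Work.MP_ce2d68_st

section evs

lemma ev_mul' (P Q : ℤ[X]) (z : ℂ) : ev (P * Q) z = ev P z * ev Q z := by
  simp [ev, cp, Polynomial.map_mul, eval_mul]

lemma ev_sum' {ι : Type} (s : Finset ι) (F : ι → ℤ[X]) (z : ℂ) :
    ev (∑ i ∈ s, F i) z = ∑ i ∈ s, ev (F i) z := by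
  simp [ev, cp, Polynomial.map_sum, eval_finsetSum]

lemma ev_prod' {ι : Type} (s : Finset ι) (F : ι → ℤ[X]) (z : ℂ) :
    ev (∏ i ∈ s, F i) z = ∏ i ∈ s, ev (F i) z := by
  simp [ev, cp, Polynomial.map_prod, eval_prod]

lemma mem_rts' {P : ℤ[X]} {a : ℂ} (hP : P.Monic) : a ∈ rts P ↔ ev P a = 0 := by
  have h : cp P ≠ 0 := (hP.map (Int.castRingHom ℂ)).ne_zero
  unfold rts ev
  rw [Multiset.mem_toFinset, mem_roots h, IsRoot.def]

lemma rv_mul' (f g : ℝ[X]) (z : ℂ) : rv (f * g) z = rv f z * rv g z := by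
  simp [rv, Polynomial.map_mul, eval_mul]

lemma rv_int (P : ℤ[X]) (z : ℂ) : rv (P.map (Int.castRingHom ℝ)) z = ev P z := by
  unfold rv ev cp
  rw [Polynomial.map_map]
  congr 2

end evs

/-- an inverse of `E` at the roots of `P` -/
lemma exists_inv (P E : ℤ[X]) (hP : P.Monic) (h : ∀ a ∈ rts P, ev E a ≠ 0) :
    ∃ w : ℝ[X], ∀ a ∈ rts P, rv w a * ev E a = 1 := by
  have hcop : IsCoprime (P.map (Int.castRingHom ℝ)) (E.map (Int.castRingHom ℝ)) := by
    rw [← Polynomial.isCoprime_map (algebraMap ℝ ℂ)]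
    rw [Polynomial.isCoprime_iff_aeval_ne_zero_of_isAlgClosed ℂ ℂ]
    intro a
    by_cases ha : a ∈ rts P
    · right
      have h1 := h a ha
      rw [← rv_int] at h1
      simpa [rv] using h1
    · left
      rw [mem_rts' hP, ← rv_int] at ha
      simpa [rv] using ha
  obtain ⟨u, w, huw⟩ := hcop
  refine ⟨w, fun a ha => ?_⟩
  have h1 : rv (u * P.map (Int.castRingHom ℝ) + w * E.map (Int.castRingHom ℝ)) a = rv 1 a := by
    rw [huw]
  have h2 : rv (u * P.map (Int.castRingHom ℝ) + w * E.map (Int.castRingHom ℝ)) a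
      = rv u a * ev P a + rv w a * ev E a := by
    rw [← rv_int P, ← rv_int E, ← rv_mul', ← rv_mul']
    simp [rv, Polynomial.map_add, eval_add]
  rw [h2, (mem_rts' hP).1 ha, mul_zero, zero_add] at h1
  rw [h1]
  simp [rv]

theorem stmt_COVF (_hBAS : Stmt_BAS) (hBASF : Stmt_BASF) (hCOV : Stmt_COV) : Stmt_COVF := by
  intro Ps hFam
  classical
  -- constants of COV
  have hcov : ∀ P : ℤ[X], ∃ c : ℝ, 0 < c ∧ (P ∈ Ps → ∀ t : ℂ → ℝ, Sym t →
      ∑ a ∈ rts P, t a = 0 → ∀ f : ℝ[X], ∃ g : ℤ[X], g.degree < P.degree ∧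
        ∀ a ∈ rts P, ‖rv f a - 4 * ev g a‖ ≤ c * Real.exp (t a)) := by
    intro P
    by_cases hP : P ∈ Ps
    · obtain ⟨c, hc, h⟩ := hCOV P (hFam P hP).1 (hFam P hP).2
      exact ⟨c, hc, fun _ => h⟩
    · exact ⟨1, one_pos, fun h => absurd h hP⟩
  choose c hc0 hc using hcov
  have hdis := (hBASF Ps hFam).2.2.2.2.2
  -- the cofactors
  have hE : ∀ P ∈ Ps, ∀ a ∈ rts P, ev (pr (Ps.erase P)) a ≠ 0 := by
    intro P hP a ha h0
    unfold pr at h0
    rw [ev_prod', Finset.prod_eq_zero_iff] at h0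
    obtain ⟨Q, hQ, hQa⟩ := h0
    have hQ' := Finset.mem_erase.1 hQ
    have h1 : a ∈ rts Q := (mem_rts' (hFam Q hQ'.2).1).2 hQa
    exact Finset.disjoint_left.1 (hdis Q hQ'.2 P hP hQ'.1) h1 ha
  have hinv : ∀ P : ℤ[X], ∃ w : ℝ[X], P ∈ Ps → ∀ a ∈ rts P, rv w a * ev (pr (Ps.erase P)) a = 1 := by
    intro P
    by_cases hP : P ∈ Ps
    · obtain ⟨w, hw⟩ := exists_inv P (pr (Ps.erase P)) (hFam P hP).1 (hE P hP)
      exact ⟨w, fun _ => hw⟩
    · exact ⟨0, fun h => absurd h hP⟩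
  choose w hw using hinv
  set Csum : ℝ := ∑ P ∈ Ps, c P * ∑ a ∈ rts P, ‖ev (pr (Ps.erase P)) a‖ with hCsum
  have hterm : ∀ P ∈ Ps, 0 ≤ c P * ∑ a ∈ rts P, ‖ev (pr (Ps.erase P)) a‖ := fun P _ =>
    mul_nonneg (hc0 P).le (Finset.sum_nonneg fun a _ => norm_nonneg _)
  have hCnn : 0 ≤ Csum := Finset.sum_nonneg hterm
  refine ⟨1 + Csum, by linarith, ?_⟩
  intro t ht hsum f
  have hg : ∀ P : ℤ[X], ∃ g : ℤ[X], P ∈ Ps → g.degree < P.degree ∧
      ∀ a ∈ rts P, ‖rv (f * w P) a - 4 * ev g a‖ ≤ c P * Real.exp (t a) := by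
    intro P
    by_cases hP : P ∈ Ps
    · obtain ⟨g, hg⟩ := hc P hP t ht (hsum P hP) (f * w P)
      exact ⟨g, fun _ => hg⟩
    · exact ⟨0, fun h => absurd h hP⟩
  choose g hg using hg
  refine ⟨∑ P ∈ Ps, pr (Ps.erase P) * g P, ?_, ?_⟩
  · rw [← mem_degreeLT]
    refine Submodule.sum_mem _ fun P hP => ?_
    rw [mem_degreeLT]
    by_cases h0 : g P = 0
    · rw [h0, mul_zero, degree_zero]
      exact WithBot.bot_lt_coe _
    · have hFe : Fam (Ps.erase P) := fun Q hQ => hFam Q (Finset.mem_of_mem_erase hQ)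
      have hm := hBASF _ hFe
      have h1 := (hg P hP).1
      have hPm := (hFam P hP).1
      rw [degree_eq_natDegree h0, degree_eq_natDegree hPm.ne_zero] at h1
      have h2 : (g P).natDegree < P.natDegree := by exact_mod_cast h1
      rw [degree_mul, degree_eq_natDegree hm.1.ne_zero, degree_eq_natDegree h0, hm.2.1]
      have h3 : dg Ps = P.natDegree + dg (Ps.erase P) := by
        unfold dg
        rw [Finset.add_sum_erase _ _ hP]
      rw [h3]
      exact_mod_cast (by omega : dg (Ps.erase P) + (g P).natDegree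
        < P.natDegree + dg (Ps.erase P))
  · intro a ha
    unfold rs at ha
    rw [Finset.mem_biUnion] at ha
    obtain ⟨P, hP, haP⟩ := ha
    have hval : ev (∑ Q ∈ Ps, pr (Ps.erase Q) * g Q) a = ev (pr (Ps.erase P)) a * ev (g P) a := by
      rw [ev_sum', Finset.sum_eq_single P]
      · rw [ev_mul']
      · intro Q hQ hQP
        rw [ev_mul']
        have : ev (pr (Ps.erase Q)) a = 0 := by
          unfold pr
          rw [ev_prod', Finset.prod_eq_zero_iff]
          exact ⟨P, Finset.mem_erase.2 ⟨hQP.symm, hP⟩, (mem_rts' (hFam P hP).1).1 haP⟩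
        rw [this, zero_mul]
      · intro h
        exact absurd hP h
    have h1 := (hg P hP).2 a haP
    have h2 := hw P hP a haP
    have h3 : rv f a - 4 * ev (∑ Q ∈ Ps, pr (Ps.erase Q) * g Q) a
        = ev (pr (Ps.erase P)) a * (rv (f * w P) a - 4 * ev (g P) a) := by
      rw [hval, rv_mul']
      linear_combination (-rv f a) * h2
    rw [h3, norm_mul]
    have h4 : ‖ev (pr (Ps.erase P)) a‖ ≤ ∑ a ∈ rts P, ‖ev (pr (Ps.erase P)) a‖ :=
      Finset.single_le_sum (f := fun a => ‖ev (pr (Ps.erase P)) a‖)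
        (fun _ _ => norm_nonneg _) haP
    have h5 : c P * ∑ a ∈ rts P, ‖ev (pr (Ps.erase P)) a‖ ≤ Csum :=
      Finset.single_le_sum (f := fun P => c P * ∑ a ∈ rts P, ‖ev (pr (Ps.erase P)) a‖)
        hterm hP
    have hexp := Real.exp_pos (t a)
    calc ‖ev (pr (Ps.erase P)) a‖ * ‖rv (f * w P) a - 4 * ev (g P) a‖
        ≤ (∑ a ∈ rts P, ‖ev (pr (Ps.erase P)) a‖) * (c P * Real.exp (t a)) :=
          mul_le_mul h4 h1 (norm_nonneg _) (Finset.sum_nonneg fun a _ => norm_nonneg _)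
      _ = (c P * ∑ a ∈ rts P, ‖ev (pr (Ps.erase P)) a‖) * Real.exp (t a) := by ring
      _ ≤ (1 + Csum) * Real.exp (t a) :=
          mul_le_mul_of_nonneg_right (by linarith) hexp.le

end Pool.Agent.Work.MP_ce2d68_st.helper54
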