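import Mathlib
import Pool.Agent.Work.MP_ce2d68_st.Interface

set_option autoImplicit false

/-!
# Block TOPP: the top digits
-/

open Polynomial

namespace Pool.Agent.Work.MP_ce2d68_st.helper54

open Pool.Agent.Work.MP_ce2d68_st

lemma monic_coeff_top {S : Type} [Semiring S] {B : S[X]} {k : ℕ} (hB : B.Monic)
    (hk : B.natDegree = k) : B.coeff k = 1 := by
  rw [← hk]
  exact hB.coeff_natDegree

theorem topp_step (n m : ℕ) (H : ℤ[X]) (p : ℝ[X]) (B : ℕ → ℝ[X]) (hmn : m < n) (hH : H.Monic)
    (hHd : H.natDegree = n - m) (hp : p.Monic) (hpd : p.natDegree = n)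
    (hB : ∀ i ∈ Finset.Icc 1 m, (B i).Monic ∧ (B i).natDegree = n - i) :
    ∀ i : ℕ, i ≤ m → ∃ (t : ℕ → ℝ) (v : ℤ[X]), (∀ i, |t i| ≤ 2) ∧ v.degree < (m : WithBot ℕ) ∧
      (p + ∑ i ∈ Finset.Icc 1 i, C (t i) * B i - X ^ n - 2
        - 4 * (H * v).map (Int.castRingHom ℝ)).degree < ((n - i : ℕ) : WithBot ℕ) := by
  intro i
  induction i with
  | zero =>
    intro _
    refine ⟨fun _ => 0, 0, fun i => by norm_num, ?_, ?_⟩
    · rw [degree_zero]
      exact WithBot.bot_lt_coe m
    · have h1 : (p - X ^ n : ℝ[X]).degree < (n : WithBot ℕ) := by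
        have hd : p.degree = (X ^ n : ℝ[X]).degree := by
          rw [degree_X_pow, degree_eq_natDegree hp.ne_zero, hpd]
        have h2 := degree_sub_lt_left hd hp.ne_zero (by rw [hp.leadingCoeff, (monic_X_pow n).leadingCoeff])
        rwa [degree_eq_natDegree hp.ne_zero, hpd] at h2
      have h3 : (2 : ℝ[X]).degree < (n : WithBot ℕ) := by
        have h4 : (2 : ℝ[X]) = C 2 := rfl
        rw [h4]
        refine lt_of_le_of_lt degree_C_le ?_
        exact_mod_cast (by omega : 0 < n)
      have h5 : p + ∑ i ∈ Finset.Icc 1 0, C ((fun _ => (0 : ℝ)) i) * B i - X ^ n - 2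
          - 4 * (H * 0 : ℤ[X]).map (Int.castRingHom ℝ) = (p - X ^ n) - 2 := by
        simp
      rw [h5, Nat.sub_zero]
      exact lt_of_le_of_lt (degree_sub_le _ _) (max_lt h1 h3)
  | succ i ih =>
    intro hi
    obtain ⟨t, v, ht, hv, hdeg⟩ := ih (by omega)
    set f := p + ∑ i ∈ Finset.Icc 1 i, C (t i) * B i - X ^ n - 2
        - 4 * (H * v).map (Int.castRingHom ℝ) with hf
    set x : ℝ := f.coeff (n - (i + 1)) with hx
    set c : ℤ := round (x / 4) with hc
    have hxc : |x - 4 * c| ≤ 2 := by
      have h1 := abs_sub_round (x / 4)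
      rw [← hc] at h1
      rw [abs_le] at h1 ⊢
      constructor <;> linarith [h1.1, h1.2]
    set τ : ℝ := -(x - 4 * c) with hτ
    have hBi := hB (i + 1) (Finset.mem_Icc.2 ⟨by omega, hi⟩)
    refine ⟨Function.update t (i + 1) τ, v + C c * X ^ (m - (i + 1)), ?_, ?_, ?_⟩
    · intro j
      by_cases hj : j = i + 1
      · subst hj
        rw [Function.update_self, hτ, abs_neg]
        exact hxc
      · rw [Function.update_of_ne hj]
        exact ht j
    · refine lt_of_le_of_lt (degree_add_le _ _) (max_lt hv ?_)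
      refine lt_of_le_of_lt (degree_C_mul_X_pow_le _ _) ?_
      exact_mod_cast (by omega : m - (i + 1) < m)
    · -- the new polynomial
      set G : ℝ[X] := (H * X ^ (m - (i + 1)) : ℤ[X]).map (Int.castRingHom ℝ) with hG
      have hGm : (H * X ^ (m - (i + 1)) : ℤ[X]).Monic := hH.mul (monic_X_pow _)
      have hGmon : G.Monic := hGm.map _
      have hGd : G.natDegree = n - (i + 1) := by
        rw [hG, hGm.natDegree_map, hH.natDegree_mul (monic_X_pow _), natDegree_X_pow, hHd]
        omega
      have hsum : ∑ j ∈ Finset.Icc 1 (i + 1), C (Function.update t (i + 1) τ j) * B j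
          = ∑ j ∈ Finset.Icc 1 i, C (t j) * B j + C τ * B (i + 1) := by
        rw [Finset.sum_Icc_succ_top (by omega), Function.update_self]
        congr 1
        refine Finset.sum_congr rfl fun j hj => ?_
        have := (Finset.mem_Icc.1 hj).2
        rw [Function.update_of_ne (by omega)]
      have hmap : ((H * (v + C c * X ^ (m - (i + 1))) : ℤ[X]).map (Int.castRingHom ℝ))
          = (H * v).map (Int.castRingHom ℝ) + C (c : ℝ) * G := by
        rw [hG, mul_add, Polynomial.map_add]
        congr 1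
        have : H * (C c * X ^ (m - (i + 1))) = C c * (H * X ^ (m - (i + 1))) := by ring
        rw [this, Polynomial.map_mul, map_C]
        simp
      have hnew : p + ∑ j ∈ Finset.Icc 1 (i + 1), C (Function.update t (i + 1) τ j) * B j
          - X ^ n - 2
          - 4 * (H * (v + C c * X ^ (m - (i + 1))) : ℤ[X]).map (Int.castRingHom ℝ)
          = f + C τ * B (i + 1) - C (4 * (c : ℝ)) * G := by
        rw [hsum, hmap, hf, C_mul]
        have h4 : (C (4 : ℝ) : ℝ[X]) = 4 := rfl
        rw [h4]
        ring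
      rw [hnew, degree_lt_iff_coeff_zero]
      intro j hj
      rw [degree_lt_iff_coeff_zero] at hdeg
      rw [coeff_sub, coeff_add, coeff_C_mul, coeff_C_mul]
      rcases Nat.eq_or_lt_of_le hj with hj | hj
      · rw [← hj, monic_coeff_top hBi.1 hBi.2, monic_coeff_top hGmon hGd, ← hx, hτ]
        ring
      · rw [hdeg j (by omega), coeff_eq_zero_of_natDegree_lt (by rw [hBi.2]; exact hj),
          coeff_eq_zero_of_natDegree_lt (by rw [hGd]; exact hj)]
        ring

theorem stmt_TOPP : Stmt_TOPP := by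
  intro n m H p B hmn hH hHd hp hpd hB
  exact topp_step n m H p B hmn hH hHd hp hpd hB m le_rfl

end Pool.Agent.Work.MP_ce2d68_st.helper54
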